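import Pool.Agent.H16.FQ.Plug
import Pool.Agent.H41.Q.Tree
import Pool.Agent.H67.Q.Side

set_option autoImplicit false

/-!
Goddyn's conjecture on critical contra pairs of permutation graphs (MP_a46c6f_co, full Q1): assembly.
-/

namespace Pool.Agent.H10.Q

open SimpleGraph Pool.Agent.H5.Goddyn Pool.Agent.H98.TC Pool.Agent.H64.Pent

theorem main {V : Type*} [Finite V] (G : SimpleGraph V) (M C₁ C₂ : G.Subgraph)
    (h : IsPermutationGraph G M C₁ C₂) (hcrit : IsCriticalContraPair G (wt M)) :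
    IsPetersenPair G M :=
  Pool.Agent.H16.FQ.petersen_of_heart
    (Pool.Agent.H41.Q.heart_of fun _ _ _ _ _ _ _ hL hH hS =>
      Pool.Agent.H67.Q.code_side_sides hL hH hS) G M C₁ C₂ h hcrit.2

end Pool.Agent.H10.Q

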